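import Pool.Agent.Lib.CS.Stmt

/-! Comparison of the two presentations of the definitions. -/

noncomputable section

open Set Function MeasureTheory

namespace Pool.Agent.Lib.CS

/-- Transfer of spinor modules. -/
def Spinor.toX {n N : ℕ} (S : Spinor n N) : CX.Spinor n N := ⟨S.c, S.skew⟩

/-- Transfer of spinor modules. -/
def Spinor.ofX {n N : ℕ} (S : CX.Spinor n N) : Spinor n N := ⟨S.c, S.skew⟩

/-- Transfer of manifolds. -/
abbrev SM.toX {n : ℕ} (X : SM n) : CX.SM n :=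
  @CX.SM.mk n X.M X.top X.t2 X.ch X.mf X.U X.F X.s X.isOpen X.cover X.smooth X.spin X.smc X.cocycle

/-- Transfer of manifolds. -/
abbrev SM.ofX {n : ℕ} (X : CX.SM n) : SM n :=
  @SM.mk n X.M X.top X.t2 X.ch X.mf X.U X.F X.s X.isOpen X.cover X.smooth X.spin X.smc X.cocycle

variable {G : Type} [Group G] {m : ℕ}

theorem isProd_iff {p q n : ℕ} (h : p + q = n) (X : SM p) (Y : SM q) (Z : SM n)
    (ψ : X.M × Y.M → Z.M) (O : Set (X.M × Y.M)) :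
    IsProd h X Y Z ψ O ↔ CX.IsProd h X.toX Y.toX Z.toX ψ O := Iff.rfl

theorem scal_eq {n : ℕ} (X : SM n) (y : X.M) : X.scal y = X.toX.scal y := rfl

/-- Transfer of cycles. -/
abbrev Sing.toX (x : Sing G m) : CX.Sing G m :=
  ⟨x.X.toX, x.N.toX, x.j, x.f, x.cpt, x.prod, x.core_cpt, x.closed, x.cont, x.cyl⟩

/-- Transfer of cycles. -/
abbrev Sing.ofX (x : CX.Sing G m) : Sing G m :=
  ⟨.ofX x.X, .ofX x.N, x.j, x.f, x.cpt, x.prod, x.core_cpt, x.closed, x.cont, x.cyl⟩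

theorem bord_iff (x y : Sing G m) : Bord x y ↔ CX.Bord x.toX y.toX :=
  ⟨fun ⟨w, h⟩ => ⟨w.toX, h⟩, fun ⟨w, h⟩ => ⟨.ofX w, h⟩⟩

theorem isBott_iff (B : SM 8) {m' : ℕ} (x : Sing G m) (y : Sing G m') :
    IsBott B x y ↔ CX.IsBott B.toX x.toX y.toX := Iff.rfl

/-- Transfer of cycles. -/
def cycE : Cyc G ≃ CX.Cyc G where
  toFun x := ⟨x.1, x.2.1.toX, x.2.2⟩
  invFun x := ⟨x.1, .ofX x.2.1, x.2.2⟩
  left_inv _ := rfl
  right_inv _ := rfl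

/-- Transfer of the bordism classes. -/
def rbE (B : SM 8) : RB G B ≃ CX.RB G B.toX :=
  Quot.congr cycE fun _ _ => or_congr
    ⟨fun ⟨k, a, b, h1, h2, h⟩ => ⟨k, ⟨a.1.toX, a.2⟩, ⟨b.1.toX, b.2⟩, congrArg cycE h1,
        congrArg cycE h2, (bord_iff _ _).1 h⟩,
      fun ⟨k, a, b, h1, h2, h⟩ => ⟨k, ⟨.ofX a.1, a.2⟩, ⟨.ofX b.1, b.2⟩, cycE.injective h1,
        cycE.injective h2, (bord_iff _ _).2 h⟩⟩ (isBott_iff _ _ _)

theorem cls_eq {R : Type} [Ring R] {k : ℕ} (p : BCH.Idem R k) : BCH.cls p.1 = BCH.K0.mk p := by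
  rw [BCH.cls, dif_pos p.2]
  refine BCH.K0.mk_eq _ _ (p.1.submatrix (Fintype.equivFin _).symm id)
    (p.1.submatrix id (Fintype.equivFin _).symm) ?_ ?_
  · exact (Matrix.submatrix_mul_equiv p.1 p.1 _ (Equiv.refl _) _).trans (by rw [p.2])
  · exact (Matrix.submatrix_mul_equiv p.1 p.1 _ (Fintype.equivFin _).symm _).trans (by
      rw [p.2]; rfl)

theorem diff_eq {R : Type} [Ring R] {k : ℕ} (p q : Idem R k) :
    K0.diff p q = (BCH.cls p.1 - BCH.cls q.1 : BCH.K0 R) := by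
  rw [cls_eq p, cls_eq q]; rfl

theorem isInd_iff {E : Type} [NormedAddCommGroup E] [NormedSpace ℝ E]
    (e P : Op (V E G) (V E G)) (z : K0 (Cr G)) : IsInd e P z ↔ CX.IsInd (G := G) (E := E) e P z :=
  ⟨fun ⟨r, p, q, x, hx, y, hy, h1, h2, h3, h4⟩ =>
      ⟨r, p.1, q.1, p.2, q.2, x, hx, y, hy, h1, h2, h3, h4.trans (diff_eq p q)⟩,
    fun ⟨r, p, q, hp, hq, x, hx, y, hy, h1, h2, h3, h4⟩ =>
      ⟨r, ⟨p, hp⟩, ⟨q, hq⟩, x, hx, y, hy, h1, h2, h3,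
        h4.trans (diff_eq (R := Cr G) ⟨p, hp⟩ ⟨q, hq⟩).symm⟩⟩

theorem isIndex_iff {N : ℕ} (x : Sing G m) (S : Spinor (m + 1) N) (z : K0 (Cr G)) :
    x.IsIndex S z ↔ x.toX.IsIndex S.toX z :=
  exists_congr fun _ => and_congr Iff.rfl (exists_congr fun _ => and_congr Iff.rfl
    (and_congr Iff.rfl (isInd_iff _ _ _)))

theorem stolz_iff (S : ∀ k, Spinor (8 * k + 7 + 1) (16 ^ (k + 1))) (B : SM 8) :
    Stolz G S B ↔ CX.Stolz G (fun k => (S k).toX) B.toX :=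
  ⟨fun ⟨θ, h, h'⟩ => ⟨θ ∘ (rbE B).symm, h.comp (rbE B).symm.bijective, fun x z =>
      (isIndex_iff (cycE.symm x).2.1 (S x.1) z).symm.trans (h' (cycE.symm x) z)⟩,
    fun ⟨θ, h, h'⟩ => ⟨θ ∘ rbE B, h.comp (rbE B).bijective, fun x z =>
      (isIndex_iff x.2.1 (S x.1) z).trans (h' (cycE x) z)⟩⟩

end Pool.Agent.Lib.CS
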