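import Pool.Agent.Lib.CS.Stmt

/-! The index of a triple, with the irreducible spinor module. -/

noncomputable section

namespace Pool.Agent.Lib.CS

instance (R : Type) [Ring R] : AddCommGroup (K0 R) := QuotientAddGroup.Quotient.addCommGroup _

/-- `z` is the higher index of the triple `x` of dimension `8 k + 8`, formed with a real spinor
module of rank `16 ^ (k + 1)`. -/
def Cyc.Ind {G : Type} [Group G] (x : Cyc G) (z : K0 (Cr G)) : Prop :=
  ∃ S : Spinor (8 * x.1 + 7 + 1) (16 ^ (x.1 + 1)), x.2.1.IsIndex S z

end Pool.Agent.Lib.CS
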