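import Pool.Agent.Lib.CS.Fin
import Pool.Agent.Lib.CS.Bridge
import Pool.Agent.Lib.RQ.Wrap

/-! Transfer of the final statement. -/

namespace Pool.Agent.Lib.CS

theorem ind_iff {G : Type} [Group G] (x : Cyc G) (z : K0 (Cr G)) : x.Ind z ↔
    ∃ S : CX.Spinor (8 * x.1 + 7 + 1) (16 ^ (x.1 + 1)), x.2.1.toX.IsIndex S z :=
  ⟨fun ⟨S, h⟩ => ⟨S.toX, (isIndex_iff _ _ _).1 h⟩, fun ⟨S, h⟩ => ⟨.ofX S, (isIndex_iff _ _ _).2 h⟩⟩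

theorem final_of (h : RQ.St_FINAL) : ∃ (G : Type) (_ : Group G), Group.FG G ∧
    (∀ x : Cyc G, ∃! z, x.Ind z) ∧
    ∃ z : K0 (Cr G), z ∉ AddSubgroup.closure {w | ∃ x : Cyc G, x.Ind w} := by
  obtain ⟨G, iG, hG, h1, z, hz⟩ := h
  refine ⟨G, iG, hG, fun x => ?_, z, fun hm => hz (AddSubgroup.closure_mono ?_ hm)⟩
  · exact (existsUnique_congr (ind_iff x)).2 (h1 x.1 x.2.1.toX x.2.2)
  · rintro w ⟨x, hw⟩
    exact ⟨x.1, x.2.1.toX, x.2.2, (ind_iff x w).1 hw⟩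

end Pool.Agent.Lib.CS
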