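import Pool.Agent.Lib.CX.Defs

/-! The Stolz group of positive scalar curvature bordism and the higher index: definitions. -/

noncomputable section

open Set Function MeasureTheory CliffordAlgebra
open scoped Manifold ContDiff InnerProductSpace

namespace Pool.Agent.Lib.CS

/-! ### `K0` of a ring -/

section K0

open Matrix

variable (R : Type) [Ring R]

/-- Idempotent `k × k` matrices. -/
abbrev Idem (k : ℕ) : Type := {e : Matrix (Fin k) (Fin k) R // e * e = e}

/-- The relations `[x y] = [y x]` and `[e ⊕ f] = [e] + [f]`. -/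
def K0Rel : Set (FreeAbelianGroup (Σ k, Idem R k)) :=
  {z | (∃ (k l : ℕ) (e : Idem R k) (f : Idem R l) (x : Matrix (Fin k) (Fin l) R)
        (y : Matrix (Fin l) (Fin k) R), x * y = e.1 ∧ y * x = f.1 ∧
        z = .of ⟨k, e⟩ - .of ⟨l, f⟩) ∨
      (∃ (k l : ℕ) (e : Idem R k) (f : Idem R l) (g : Idem R (k + l)),
        g.1 = reindex finSumFinEquiv finSumFinEquiv (fromBlocks e.1 0 0 f.1) ∧
        z = .of ⟨k + l, g⟩ - .of ⟨k, e⟩ - .of ⟨l, f⟩)}

/-- `K0` of a unital ring: the Grothendieck group of equivalence classes of idempotent matrices. -/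
def K0 : Type := FreeAbelianGroup (Σ k, Idem R k) ⧸ AddSubgroup.closure (K0Rel R)

variable {R}

/-- The class `[p] - [q]`. -/
def K0.diff {k : ℕ} (p q : Idem R k) : K0 R :=
  QuotientAddGroup.mk (FreeAbelianGroup.of ⟨k, p⟩ - FreeAbelianGroup.of ⟨k, q⟩)

end K0

/-! ### Operators -/

section Op

variable (E F : Type) {H : Type} [NormedAddCommGroup E] [NormedSpace ℝ E] [NormedAddCommGroup F]
  [NormedSpace ℝ F] [NormedAddCommGroup H] [NormedSpace ℝ H]

/-- Bounded operators. -/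
def Op : Type := E →L[ℝ] F

instance : AddCommGroup (Op E F) := (inferInstance : AddCommGroup (E →L[ℝ] F))
instance : Module ℝ (Op E F) := (inferInstance : Module ℝ (E →L[ℝ] F))
instance : TopologicalSpace (Op E F) := (inferInstance : TopologicalSpace (E →L[ℝ] F))
instance : Ring (Op E E) := (inferInstance : Ring (E →L[ℝ] E))
instance : Algebra ℝ (Op E E) := (inferInstance : Algebra ℝ (E →L[ℝ] E))

/-- The space `E ⊕ ℝ^r`. -/
def Pl (r : ℕ) : Type := E × (Fin r → ℝ)

instance (r : ℕ) : NormedAddCommGroup (Pl E r) :=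
  (inferInstance : NormedAddCommGroup (E × (Fin r → ℝ)))
instance (r : ℕ) : NormedSpace ℝ (Pl E r) := (inferInstance : NormedSpace ℝ (E × (Fin r → ℝ)))

/-- The inclusion of `E`. -/
def Pl.i1 (r : ℕ) : Op E (Pl E r) := ContinuousLinearMap.inl ℝ E (Fin r → ℝ)

/-- The projection to `E`. -/
def Pl.p1 (r : ℕ) : Op (Pl E r) E := ContinuousLinearMap.fst ℝ E (Fin r → ℝ)

/-- The inclusion of the `i`-th line. -/
def Pl.i2 {r : ℕ} (i : Fin r) : Op ℝ (Pl E r) :=
  ContinuousLinearMap.inr ℝ E (Fin r → ℝ) ∘L ContinuousLinearMap.single ℝ (fun _ => ℝ) i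

/-- The projection to the `j`-th line. -/
def Pl.p2 {r : ℕ} (j : Fin r) : Op (Pl E r) ℝ :=
  ContinuousLinearMap.proj j ∘L ContinuousLinearMap.snd ℝ E (Fin r → ℝ)

/-- Square integrable functions. -/
def L2 {M : Type} [MeasurableSpace M] (μ : Measure M) : Type := Lp E 2 μ

instance {M : Type} [MeasurableSpace M] (μ : Measure M) : NormedAddCommGroup (L2 E μ) :=
  (inferInstance : NormedAddCommGroup (Lp E 2 μ))
instance {M : Type} [MeasurableSpace M] (μ : Measure M) : NormedSpace ℝ (L2 E μ) :=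
  (inferInstance : NormedSpace ℝ (Lp E 2 μ))

variable {E F}

/-- Evaluation of an operator. -/
def Op.ap (T : Op E F) (v : E) : F := DFunLike.coe (F := E →L[ℝ] F) T v

/-- Composition of operators. -/
def Op.cp (T : Op F H) (S : Op E F) : Op E H := ContinuousLinearMap.comp T S

/-- Compact operators. -/
def Op.IsCpt (T : Op E F) : Prop := IsCompactOperator T.ap

/-- The closed linear span. -/
def cspan (A : Set (Op E F)) : Set (Op E F) := closure (Submodule.span ℝ A : Set (Op E F))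

/-- `ξ` is the class of the function `φ`. -/
def L2.Rep {M : Type} [MeasurableSpace M] {μ : Measure M} (ξ : L2 E μ) (φ : M → E) : Prop :=
  (ξ.1 : M → E) =ᵐ[μ] φ

/-- An operator applied pointwise. -/
def L2.map {M : Type} [MeasurableSpace M] (μ : Measure M) (T : Op E E) : Op (L2 E μ) (L2 E μ) :=
  ContinuousLinearMap.compLpL 2 μ T

variable (G : Type) [Group G]

variable (E) in
/-- Square summable functions on `G` with values in `E`. -/
def V : Type := lp (fun _ : G => E) 2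

instance : NormedAddCommGroup (V E G) := (inferInstance : NormedAddCommGroup (lp (fun _ : G => E) 2))
instance : NormedSpace ℝ (V E G) := (inferInstance : NormedSpace ℝ (lp (fun _ : G => E) 2))

/-- An operator applied pointwise. -/
def amp (T : Op E F) : Op (V E G) (V F G) :=
  lp.mapCLM 2 (fun _ => T) (norm_nonneg (show E →L[ℝ] F from T)) fun _ => le_rfl

variable {G}

/-- The value at a point of `G`. -/
def V.at (ξ : V E G) (x : G) : E := ξ.1 x

omit [NormedSpace ℝ E] in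
theorem mem_shift (g : G) (ξ : V E G) : Memℓp (fun x => ξ.at (g⁻¹ * x)) 2 := BCO.memLp_shift g ξ

/-- Left translation. -/
def shift (g : G) (ξ : V E G) : V E G := ⟨fun x => ξ.at (g⁻¹ * x), mem_shift g ξ⟩

/-- Left translation as an operator. -/
def lam (g : G) : Op (V E G) (V E G) :=
  LinearMap.mkContinuous ⟨⟨shift g, fun _ _ => rfl⟩, fun _ _ => rfl⟩ 1 fun ξ => by
    rw [one_mul]; exact (BCO.norm_shift g ξ).le

/-- The operator `λ(g) ⊗ T`. -/
def tw (g : G) (T : Op E E) : Op (V E G) (V E G) := (amp G T).cp (lam g)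

variable (E G)

/-- The closed span of the operators `λ(g) ⊗ T`, `T` bounded. -/
def RA : Set (Op (V E G) (V E G)) := cspan {A | ∃ g T, A = tw g T}

/-- The closed span of the operators `λ(g) ⊗ T`, `T` compact. -/
def KK : Set (Op (V E G) (V E G)) := cspan {A | ∃ (g : G) (T : Op E E), T.IsCpt ∧ A = tw g T}

theorem RA_closed : (∀ a ∈ RA ℝ G, ∀ b ∈ RA ℝ G, a * b ∈ RA ℝ G ∧ a + b ∈ RA ℝ G) ∧
    1 ∈ RA ℝ G ∧ 0 ∈ RA ℝ G ∧ ∀ a ∈ RA ℝ G, -a ∈ RA ℝ G :=
  ⟨fun _ ha _ hb => ⟨(BCO.RA G ℝ).mul_mem ha hb, (BCO.RA G ℝ).add_mem ha hb⟩, (BCO.RA G ℝ).one_mem,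
    (BCO.RA G ℝ).zero_mem, fun _ ha => (BCO.RA G ℝ).neg_mem ha⟩

/-- The real reduced group C*-algebra as a ring of operators on `ℓ²(G)`. -/
def CrS : Subring (Op (V ℝ G) (V ℝ G)) where
  carrier := RA ℝ G
  mul_mem' ha hb := ((RA_closed G).1 _ ha _ hb).1
  one_mem' := (RA_closed G).2.1
  add_mem' ha hb := ((RA_closed G).1 _ ha _ hb).2
  zero_mem' := (RA_closed G).2.2.1
  neg_mem' ha := (RA_closed G).2.2.2 _ ha

/-- The real reduced group C*-algebra. -/
def Cr : Type := CrS G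

instance : Ring (Cr G) := (CrS G).toRing

variable {E G}

/-- The operator `a ⊕ q` on `ℓ²(G, E ⊕ ℝ^r)`. -/
def blk {r : ℕ} (a : Op (V E G) (V E G)) (q : Matrix (Fin r) (Fin r) (Cr G)) :
    Op (V (Pl E r) G) (V (Pl E r) G) :=
  (amp G (Pl.i1 E r)).cp (a.cp (amp G (Pl.p1 E r))) + ∑ i, ∑ j,
    (amp G (Pl.i2 E i)).cp (Op.cp (q i j).1 (amp G (Pl.p2 E j)))

/-- `z = [p] - [q]` is the Mishchenko-Fomenko index of `P e : im e → im P`: a compact perturbation
of `P e ⊕ 0` is an isomorphism from `im e ⊕ im q` to `im P ⊕ im p`. -/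
def IsInd (e P : Op (V E G) (V E G)) (z : K0 (Cr G)) : Prop :=
  ∃ (r : ℕ) (p q : Idem (Cr G) r), ∃ x ∈ RA (Pl E r) G, ∃ y ∈ RA (Pl E r) G,
    x * y = blk P p.1 ∧ y * x = blk e q.1 ∧ x - blk (P * e) 0 ∈ KK (Pl E r) G ∧ z = K0.diff p q

end Op

/-! ### Calculus on manifolds -/

section Man

variable {E H M E' H' M' : Type} [NormedAddCommGroup E] [NormedSpace ℝ E] [TopologicalSpace H]
  (I : ModelWithCorners ℝ E H) [TopologicalSpace M] [ChartedSpace H M]
  [NormedAddCommGroup E'] [NormedSpace ℝ E'] [TopologicalSpace H']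
  (J : ModelWithCorners ℝ E' H') [TopologicalSpace M'] [ChartedSpace H' M']

/-- Frames of the tangent space. -/
def Frame (x : M) : Type := E ≃L[ℝ] TangentSpace I x

/-- The differential. -/
def push (φ : M → M') (x : M) (w : TangentSpace I x) : TangentSpace J (φ x) := mfderiv I J φ x w

/-- Smooth vector fields. -/
def SmVF [IsManifold I ∞ M] (W : ∀ x : M, TangentSpace I x) (U : Set M) : Prop :=
  ContMDiffOn I I.tangent ∞ (fun x => (⟨x, W x⟩ : TangentBundle I M)) U

variable {I}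

/-- The tangent vector with given coordinates. -/
def Frame.ap {x : M} (F : Frame I x) (v : E) : TangentSpace I x :=
  DFunLike.coe (F := E ≃L[ℝ] TangentSpace I x) F v

/-- The coordinates of a tangent vector. -/
def Frame.inv {x : M} (F : Frame I x) (w : TangentSpace I x) : E := ContinuousLinearEquiv.symm F w

/-- The determinant of a frame in the chart at `x₀`. -/
def jac {M : Type} [TopologicalSpace M] [ChartedSpace E M] (F : ∀ x : M, Frame 𝓘(ℝ, E) x) (x₀ : M)
    (y : E) : ℝ :=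
  ContinuousLinearMap.det
    ((mfderiv 𝓘(ℝ, E) 𝓘(ℝ, E) (chartAt E x₀) ((chartAt E x₀).symm y)).comp
      (ContinuousLinearEquiv.toContinuousLinearMap (F ((chartAt E x₀).symm y))) : E →L[ℝ] E)

end Man

/-! ### Clifford algebras -/

/-- Euclidean space. -/
def Eu (n : ℕ) : Type := EuclideanSpace ℝ (Fin n)

instance (n : ℕ) : NormedAddCommGroup (Eu n) :=
  (inferInstance : NormedAddCommGroup (EuclideanSpace ℝ (Fin n)))
instance (n : ℕ) : InnerProductSpace ℝ (Eu n) :=
  (inferInstance : InnerProductSpace ℝ (EuclideanSpace ℝ (Fin n)))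
instance (n : ℕ) : MeasureSpace (Eu n) := (inferInstance : MeasureSpace (EuclideanSpace ℝ (Fin n)))
instance (n : ℕ) : NormedSpace ℝ (Eu n) := inferInstance
instance (n : ℕ) : TopologicalSpace (Eu n) := inferInstance
instance (n : ℕ) : AddCommGroup (Eu n) := inferInstance
instance (n : ℕ) : AddCommMonoid (Eu n) := inferInstance
instance (n : ℕ) : Module ℝ (Eu n) := inferInstance

/-- The coordinates. -/
def Eu.co {n : ℕ} (v : Eu n) (i : Fin n) : ℝ := WithLp.ofLp v i

/-- The model space. -/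
abbrev Im (n : ℕ) : ModelWithCorners ℝ (Eu n) (Eu n) := 𝓘(ℝ, Eu n)

/-- The negative definite form `-|v|²`. -/
def Qn (n : ℕ) : QuadraticForm ℝ (Eu n) := -LinearMap.BilinMap.toQuadraticMap (innerₗ (Eu n))

/-- The Clifford algebra `Cl_n`, with `v² = -|v|²`. -/
def Cl (n : ℕ) : Type := CliffordAlgebra (Qn n)

instance (n : ℕ) : Ring (Cl n) := (inferInstance : Ring (CliffordAlgebra (Qn n)))
instance (n : ℕ) : Algebra ℝ (Cl n) := (inferInstance : Algebra ℝ (CliffordAlgebra (Qn n)))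

/-- Vectors in the Clifford algebra. -/
def io {n : ℕ} (v : Eu n) : Cl n := ι (Qn n) v

/-- The standard basis. -/
def bv {n : ℕ} (i : Fin n) : Eu n := EuclideanSpace.single i 1

/-- The isometric inclusion of Euclidean spaces along an injection of the coordinates. -/
def incF {p n : ℕ} (f : Fin p ↪ Fin n) (v : Eu p) : Eu n := ∑ i, v.co i • bv (f i)

theorem incF_iso {p n : ℕ} (f : Fin p ↪ Fin n) : (∀ u v, incF f (u + v) = incF f u + incF f v) ∧
    (∀ (r : ℝ) v, incF f (r • v) = r • incF f v) ∧ ∀ v, Qn n (incF f v) = Qn p v :=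
  ⟨(CX.inc f).map_add', (CX.inc f).map_smul', (CX.inc f).map_app'⟩

/-- The inclusion as an isometry of quadratic forms. -/
def inc {p n : ℕ} (f : Fin p ↪ Fin n) : (Qn p).Isometry (Qn n) where
  toFun := incF f
  map_add' := (incF_iso f).1
  map_smul' := (incF_iso f).2.1
  map_app' := (incF_iso f).2.2

/-- The induced map of Clifford algebras. -/
def cmap {p n : ℕ} (f : Fin p ↪ Fin n) (s : Cl p) : Cl n := CliffordAlgebra.map (inc f) s

/-- The first `p` coordinates. -/
def il {p q n : ℕ} (h : p + q = n) : Fin p ↪ Fin n := (Fin.castAddEmb q).trans (finCongr h).toEmbedding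

/-- The last `q` coordinates. -/
def ir {p q n : ℕ} (h : p + q = n) : Fin q ↪ Fin n := (Fin.natAddEmb p).trans (finCongr h).toEmbedding

/-- Smoothness of a map into a finite dimensional algebra. -/
def SmC {E H Z A : Type} [NormedAddCommGroup E] [NormedSpace ℝ E] [TopologicalSpace H]
    (I : ModelWithCorners ℝ E H) [TopologicalSpace Z] [ChartedSpace H Z] [Ring A] [Algebra ℝ A]
    (s : Z → A) (O : Set Z) : Prop :=
  ∀ l : A →ₗ[ℝ] ℝ, ContMDiffOn I 𝓘(ℝ, ℝ) ∞ (fun z => l (s z)) O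

/-- The spin group. -/
def IsSpin {n : ℕ} (s : Cl n) : Prop := s ∈ spinGroup (Qn n)

/-- `s` lies in `Spin(n)` and `s (κ v) s⁻¹ = A v` for all `v`. -/
def Covers {n : ℕ} {W : Type} (s : Cl n) (κ A : W → Eu n) : Prop :=
  IsSpin s ∧ ∀ v, io (A v) * s = s * io (κ v)

/-- A real spinor module: Clifford multiplication by vectors is skew. -/
structure Spinor (n N : ℕ) where
  c : Cl n →ₐ[ℝ] Op (Eu N) (Eu N)
  skew : ∀ v u w, ⟪(c (io v)).ap u, w⟫_ℝ = -⟪u, (c (io v)).ap w⟫_ℝ

/-- Clifford multiplication. -/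
def Spinor.cl {n N : ℕ} (S : Spinor n N) (s : Cl n) : Op (Eu N) (Eu N) := S.c s

/-- The grading operator: the action of the volume element `e_1 ⋯ e_n`. -/
def Spinor.gr {n N : ℕ} (S : Spinor n N) : Op (Eu N) (Eu N) :=
  S.cl (List.ofFn fun i => io (bv i)).prod

/-! ### Riemannian spin manifolds -/

/-- A Riemannian spin manifold without boundary: smooth local frames `F a` on open sets `U a`
(they define the metric, for which they are orthonormal, and the orientation), whose transition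
functions are covered by a smooth cocycle `s` with values in `Spin(n)`. -/
structure SM (n : ℕ) where
  M : Type
  [top : TopologicalSpace M]
  [t2 : T2Space M]
  [ch : ChartedSpace (Eu n) M]
  [mf : IsManifold (Im n) ∞ M]
  U : ℕ → Set M
  F : ℕ → ∀ x : M, Frame (Im n) x
  s : ℕ → ℕ → M → Cl n
  isOpen : ∀ a, IsOpen (U a)
  cover : ∀ x, ∃ a, x ∈ U a
  smooth : ∀ a v, SmVF (Im n) (fun x => (F a x).ap v) (U a)
  spin : ∀ a b, ∀ x ∈ U a ∩ U b, Covers (s a b x) id fun v => (F a x).inv ((F b x).ap v)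
  smc : ∀ a b, SmC (Im n) (s a b) (U a ∩ U b)
  cocycle : ∀ a b c, ∀ x ∈ U a ∩ U b ∩ U c, s a b x * s b c x = s a c x

attribute [instance] SM.top SM.t2 SM.ch SM.mf

instance {n : ℕ} (X : SM n) : MeasurableSpace X.M := borel X.M

/-- The standard frame of Euclidean space. -/
def stdF {n : ℕ} (x : Eu n) : Frame (Im n) x := ContinuousLinearEquiv.refl ℝ (Eu n)

theorem flat_mf (n : ℕ) : IsManifold (Im n) ∞ (Eu n) := (CX.flat n).mf

theorem flat_smooth (n : ℕ) (v : Eu n) :
    haveI := flat_mf n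
    SmVF (Im n) (fun x : Eu n => (stdF x).ap v) univ := (CX.flat n).smooth 0 v

theorem flat_spin {n : ℕ} (x : Eu n) : Covers 1 id fun v => (stdF x).inv ((stdF x).ap v) :=
  (CX.flat n).spin 0 0 x ⟨trivial, trivial⟩

theorem flat_smc (n : ℕ) : SmC (Im n) (fun _ : Eu n => (1 : Cl n)) (univ ∩ univ) :=
  (CX.flat n).smc 0 0

/-- Euclidean space with its standard frame. -/
abbrev flat (n : ℕ) : SM n where
  M := Eu n
  mf := flat_mf n
  U _ := univ
  F _ := stdF
  s _ _ _ := 1
  isOpen _ := isOpen_univ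
  cover _ := ⟨0, trivial⟩
  smooth _ := flat_smooth n
  spin _ _ x _ := flat_spin x
  smc _ _ := flat_smc n
  cocycle _ _ _ _ _ := one_mul _

namespace SM

variable {n : ℕ} (X : SM n)

/-- The vector fields of the frame `a`. -/
def e (a : ℕ) (i : Fin n) (x : X.M) : TangentSpace (Im n) x := (X.F a x).ap (bv i)

/-- The derivative along `e_i`. -/
def dd {S : Type} [NormedAddCommGroup S] [NormedSpace ℝ S] (a : ℕ) (i : Fin n) (φ : X.M → S)
    (x : X.M) : S := push (Im n) 𝓘(ℝ, S) φ x (X.e a i x)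

/-- The structure constants `⟨[e_i, e_j], e_k⟩`. -/
def cc (a : ℕ) (i j k : Fin n) (x : X.M) : ℝ :=
  ((X.F a x).inv (VectorField.mlieBracket (Im n) (X.e a i) (X.e a j) x)).co k

/-- The Levi-Civita coefficients `⟨∇_{e_i} e_j, e_k⟩` (Koszul formula). -/
def ga (a : ℕ) (i j k : Fin n) (x : X.M) : ℝ :=
  (X.cc a i j k x - X.cc a j k i x + X.cc a k i j x) / 2

/-- The first frame defined at a point. -/
def fr (x : X.M) : ℕ := sInf {a | x ∈ X.U a}

/-- The curvature `⟨R(e_i, e_j) e_k, e_l⟩`. -/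
def riem (a : ℕ) (i j k l : Fin n) (x : X.M) : ℝ :=
  X.dd a i (X.ga a j k l) x - X.dd a j (X.ga a i k l) x +
    ∑ m, (X.ga a j k m x * X.ga a i m l x - X.ga a i k m x * X.ga a j m l x -
      X.cc a i j m x * X.ga a m k l x)

/-- The scalar curvature. -/
def scal (x : X.M) : ℝ := ∑ i, ∑ j, X.riem (X.fr x) i j j i x

/-- The spin Dirac operator in the frame `a`. -/
def dirac {N : ℕ} (S : Spinor n N) (a : ℕ) (ψ : X.M → Eu N) (x : X.M) : Eu N :=
  ∑ i, (S.cl (io (bv i))).ap (X.dd a i ψ x + (1 / 4 : ℝ) •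
    ∑ j, ∑ k, X.ga a i j k x • (S.cl (io (bv j) * io (bv k))).ap (ψ x))

/-- `μ` is the Riemannian volume. -/
def IsVol (μ : Measure X.M) : Prop :=
  ∀ x₀ a (A : Set X.M), MeasurableSet A → A ⊆ (chartAt (Eu n) x₀).source ∩ X.U a →
    μ A = ∫⁻ y in chartAt (Eu n) x₀ '' A, ENNReal.ofReal |jac (X.F a) x₀ y|⁻¹

end SM

/-- On the open set `O`, the map `ψ` is an isometric spin embedding of the product `X × Y`. -/
def IsProd {p q n : ℕ} (h : p + q = n) (X : SM p) (Y : SM q) (Z : SM n) (ψ : X.M × Y.M → Z.M)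
    (O : Set (X.M × Y.M)) : Prop :=
  IsLocalDiffeomorphOn ((Im p).prod (Im q)) (Im n) ∞ ψ O ∧ InjOn ψ O ∧
  ∃ t : ℕ × ℕ × ℕ → X.M × Y.M → Cl n,
    let D : ℕ × ℕ × ℕ → Set (X.M × Y.M) := fun a =>
      {z ∈ O | z.1 ∈ X.U a.1 ∧ z.2 ∈ Y.U a.2.1 ∧ ψ z ∈ Z.U a.2.2}
    (∀ a, SmC ((Im p).prod (Im q)) (t a) (D a)) ∧
    (∀ a, ∀ z ∈ D a, Covers (t a z) (fun v : Eu p × Eu q => incF (il h) v.1 + incF (ir h) v.2)
      fun v => (Z.F a.2.2 (ψ z)).inv (push ((Im p).prod (Im q)) (Im n) ψ z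
        ((X.F a.1 z.1).ap v.1, (Y.F a.2.1 z.2).ap v.2))) ∧
    ∀ a b, ∀ z ∈ D a ∩ D b, Z.s a.2.2 b.2.2 (ψ z) * t b z =
      t a z * (cmap (il h) (X.s a.1 b.1 z.1) * cmap (ir h) (Y.s a.2.1 b.2.1 z.2))

/-! ### The classifying space -/

/-- The standard simplex on the vertices `0, …, n - 1`. -/
def Sx (n : ℕ) : Set (ℕ → ℝ) :=
  {t | (∀ i, 0 ≤ t i) ∧ (∀ i, n ≤ i → t i = 0) ∧ ∑ i ∈ Finset.range n, t i = 1}

/-- The disjoint union of the simplices `(n, g)`. -/
abbrev Jn (G : Type) : Type := Σ σ : ℕ × (ℕ → G), Sx σ.1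

/-- Two points of the join lie in one orbit of the right action of `G`. -/
def JRel (G : Type) [Group G] (p q : Jn G) : Prop :=
  p.2.1 = q.2.1 ∧ ∀ i j, p.2.1 i ≠ 0 → p.2.1 j ≠ 0 → p.1.2 i * (p.1.2 j)⁻¹ = q.1.2 i * (q.1.2 j)⁻¹

/-- The classifying space: the infinite join `G * G * ⋯` with the weak (CW) topology, modulo the
right action of `G`. A point `∑ t_i g_i` of the join is a point `t` of the simplex `(n, g)`. -/
def BG (G : Type) [Group G] : Type := Quot (JRel G)

variable {G : Type} [Group G]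

instance : TopologicalSpace (BG G) := (inferInstance : TopologicalSpace (Quot (JRel G)))

/-- The join coordinates. -/
def BG.t : BG G → ℕ → ℝ := Quot.lift (fun p => p.2.1) fun _ _ h => h.1

open Classical in
/-- The transition cocycle `g_i g_j⁻¹` of the universal covering. -/
def BG.co (i j : ℕ) : BG G → G :=
  Quot.lift (fun p => if p.2.1 i ≠ 0 ∧ p.2.1 j ≠ 0 then p.1.2 i * (p.1.2 j)⁻¹ else 1)
    fun p q h => by
      rw [← h.1]
      split_ifs with h'
      · exact h.2 i j h'.1 h'.2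
      · rfl

/-- The first join coordinate that does not vanish. -/
def BG.ix (p : BG G) : ℕ := sInf {i | p.t i ≠ 0}

/-! ### The Stolz group -/

variable (G) in
/-- A compact spin manifold `L = core` of dimension `m + 1` with boundary `N` and a map to `BG`,
recorded with a half cylinder attached: the metric is a product on the collar `0 < t ≤ 1`, the
boundary is `t = 1`, and the map does not depend on `t ≥ 1`. -/
structure Sing (m : ℕ) where
  X : SM (m + 1)
  N : SM m
  j : N.M × Eu 1 → X.M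
  f : X.M → BG G
  cpt : CompactSpace N.M
  prod : IsProd rfl N (flat 1) X j {z | 0 < Eu.co z.2 0}
  core_cpt : IsCompact (j '' {z | 1 < Eu.co z.2 0})ᶜ
  closed : IsClosed (j '' {z | 1 ≤ Eu.co z.2 0})
  cont : Continuous f
  cyl : ∀ y t, 1 ≤ Eu.co t 0 → f (j (y, t)) = f (j (y, bv 0))

variable {m : ℕ}

/-- The compact manifold with boundary. -/
def Sing.core (x : Sing G m) : Set x.X.M := (x.j '' {z | 1 < Eu.co z.2 0})ᶜ

/-- The open neighbourhood `t < 2` of the core. -/
def Sing.nbd (x : Sing G m) : Set x.X.M := (x.j '' {z | 2 ≤ Eu.co z.2 0})ᶜ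

/-- Bordism: `x.core` (outgoing) and `y.core` (incoming) lie in the boundary of a compact spin
manifold `w.core`, the rest `V` of that boundary has positive scalar curvature and product collars,
and the maps to `BG` extend. -/
def Bord (x y : Sing G m) : Prop :=
  ∃ (w : Sing G (m + 1)) (α : x.X.M → w.N.M) (β : y.X.M → w.N.M),
    IsProd rfl x.X (flat 1) w.X (fun z => w.j (α z.1, z.2)) {z | z.1 ∈ x.nbd ∧ 0 < Eu.co z.2 0} ∧
    IsProd rfl y.X (flat 1) w.X (fun z => w.j (β z.1, -z.2)) {z | z.1 ∈ y.nbd ∧ Eu.co z.2 0 < 0} ∧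
    Disjoint (α '' x.nbd) (β '' y.nbd) ∧
    (∀ p, p ∉ α '' x.core → p ∉ β '' y.core → 0 < w.N.scal p) ∧
    (∀ p ∈ x.core, w.f (w.j (α p, bv 0)) = x.f p) ∧ ∀ p ∈ y.core, w.f (w.j (β p, bv 0)) = y.f p

/-- `y` is the product of `x` with `B`. -/
def IsBott (B : SM 8) {m' : ℕ} (x : Sing G m) (y : Sing G m') : Prop :=
  ∃ (h : m + 1 + 8 = m' + 1) (ψ : x.X.M × B.M → y.X.M), IsProd h x.X B y.X ψ univ ∧
    Surjective ψ ∧ ∀ z, (ψ z ∈ y.core ↔ z.1 ∈ x.core) ∧ y.f (ψ z) = x.f z.1

variable (G) in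
/-- The triples `(L, f, h)` of dimension `8 k + 8`: the boundary has positive scalar curvature. -/
def Cyc : Type 1 := Σ k : ℕ, {x : Sing G (8 * k + 7) // ∀ y, 0 < x.N.scal y}

variable (G) in
/-- The direct limit `R_0(BG)[B⁻¹]` of `R_8 → R_16 → ⋯`. -/
def RB (B : SM 8) : Type 1 :=
  Quot fun x y : Cyc G =>
    (∃ k a b, x = ⟨k, a⟩ ∧ y = ⟨k, b⟩ ∧ Bord a.1 b.1) ∨ IsBott B x.2.1 y.2.1

/-! ### The higher index -/

variable {N : ℕ}

open Classical in
/-- The spinor field on the pulled back `G`-covering that lives on the sheet `g_i = g` and has the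
components `φ` in the frame `a`, written in the trivialisation by the first frame and the first
join coordinate at each point. -/
def Sing.sec (x : Sing G m) (S : Spinor (m + 1) N) (a i : ℕ) (g : G) (φ : x.X.M → Eu N) (γ : G)
    (p : x.X.M) : Eu N :=
  if (x.f p).co i (x.f p).ix * γ = g then (S.cl (x.X.s (x.X.fr p) a p)).ap (φ p) else 0

/-- `e` is the projection onto the graph of `D⁺`: for all test sections, it fixes `σ + D σ` if `σ`
is positive and kills `σ - D σ` if `σ` is negative. -/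
def Sing.IsGraph (x : Sing G m) (S : Spinor (m + 1) N) (μ : Measure x.X.M)
    (e : Op (V (L2 (Eu N) μ) G) (V (L2 (Eu N) μ) G)) : Prop :=
  ∀ a i g (ψ : x.X.M → Eu N), ContMDiff (Im (m + 1)) (Im N) ∞ ψ → HasCompactSupport ψ →
    tsupport ψ ⊆ x.X.U a ∩ {p | (x.f p).t i ≠ 0} →
    let P : x.X.M → Eu N := fun p => (1 / 2 : ℝ) • (ψ p + S.gr.ap (ψ p))
    ∃ ξ η : V (L2 (Eu N) μ) G, e.ap ξ = η ∧ ∀ γ,
      (ξ.at γ).Rep (x.sec S a i g (ψ + x.X.dirac S a fun p => S.gr.ap (ψ p)) γ) ∧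
      (η.at γ).Rep (x.sec S a i g (P + x.X.dirac S a P) γ)

/-- `z` is the higher index of the equivariant Dirac operator `D⁺` on the covering of the manifold
with the cylinder attached. -/
def Sing.IsIndex (x : Sing G m) (S : Spinor (m + 1) N) (z : K0 (Cr G)) : Prop :=
  ∃ μ, x.X.IsVol μ ∧ ∃ e ∈ RA (L2 (Eu N) μ) G, x.IsGraph S μ e ∧
    IsInd e (amp G (L2.map μ ((1 / 2 : ℝ) • (1 - S.gr)))) z

variable (G) in
/-- The Stolz conjecture for `G` in degree `0`, as a statement about sets: the higher index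
induces a bijection from `R_0(BG)[B⁻¹]` to `KO_0(C*_r G)`. -/
def Stolz (S : ∀ k, Spinor (8 * k + 7 + 1) (16 ^ (k + 1))) (B : SM 8) : Prop :=
  ∃ θ : RB G B → K0 (Cr G), Bijective θ ∧
    ∀ (x : Cyc G) z, x.2.1.IsIndex (S x.1) z ↔ θ (Quot.mk _ x) = z

end Pool.Agent.Lib.CS
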